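import Pool.Agent.ABY.Stmts

/-! Block ABY, row VEX. -/

set_option autoImplicit false

open scoped BigOperators Matrix

namespace Pool.Agent.ABY.H82

open Pool.Agent.LE.QF Pool.Agent.AFJ

section

variable {𝕜 : Type} [RCLike 𝕜] {X : Type} [Fintype X] [DecidableEq X]

theorem eqn (M : Matrix X X 𝕜) (P : X → ℝ) (f : X → 𝕜) (a : X) :
    ((1 - M * dg 𝕜 P) *ᵥ f) a = f a - ∑ b, M a b * (((P b : ℝ) : 𝕜) * f b) := by
  rw [Matrix.sub_mulVec, Matrix.one_mulVec, Pi.sub_apply, ← Matrix.mulVec_mulVec]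
  congr 1
  unfold dg
  simp only [Matrix.mulVec, dotProduct, Matrix.diagonal_apply, ite_mul, zero_mul,
    Finset.sum_ite_eq, Finset.mem_univ, if_true]

theorem isu (hC : CmpStmt) (M : Matrix X X 𝕜) (K : Matrix X X ℝ) (P g : X → ℝ) (U A : Finset X)
    (ρ : ℝ) (h : Cmp M K P g U A ρ) : IsUnit (1 - M * dg 𝕜 P).det := by
  rw [← Matrix.isUnit_iff_isUnit_det, ← Matrix.mulVec_injective_iff_isUnit]
  have key : ∀ f : X → 𝕜, (1 - M * dg 𝕜 P) *ᵥ f = 0 → f = 0 := by
    intro f hf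
    have h1 : ∀ a, f a = ∑ b, M a b * (((P b : ℝ) : 𝕜) * f b) := by
      intro a
      have h2 := congrFun hf a
      rw [eqn, Pi.zero_apply, sub_eq_zero] at h2
      exact h2
    have h2 := (hC 𝕜 X M K P g U A ρ h).2 f (fun _ => 0) (by
      intro a _
      rw [← h1 a]
      simp)
    funext a
    rw [h1 a, Pi.zero_apply]
    apply Finset.sum_eq_zero
    intro b _
    by_cases hb : b ∈ A
    · have h3 : f b = 0 := norm_le_zero_iff.1 (h2 b hb)
      rw [h3, mul_zero, mul_zero]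
    · have h3 : P b = 0 := h.hP.2 b fun hb' => hb (h.hU hb')
      rw [h3, RCLike.ofReal_zero, zero_mul, mul_zero]
  intro f f' hff
  have h1 := key (f - f') (by
    rw [Matrix.mulVec_sub]
    exact sub_eq_zero.2 hff)
  exact sub_eq_zero.1 h1

theorem virEq (hC : CmpStmt) (M : Matrix X X 𝕜) (K : Matrix X X ℝ) (P g : X → ℝ) (U A : Finset X)
    (ρ : ℝ) (h : Cmp M K P g U A ρ) (w : X → ℝ) :
    (1 - M * dg 𝕜 P) *ᵥ vir M P w = M *ᵥ fun x => ((w x : ℝ) : 𝕜) := by
  unfold vir TT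
  rw [Matrix.mulVec_mulVec, Matrix.mul_nonsing_inv _ (isu hC M K P g U A ρ h),
    Matrix.one_mulVec]

theorem virPsi (hC : CmpStmt) (M : Matrix X X 𝕜) (K : Matrix X X ℝ) (P g : X → ℝ)
    (U A : Finset X) (ρ : ℝ) (h : Cmp M K P g U A ρ) (w : X → ℝ) (a : X) :
    vir M P w a - ∑ b, M a b * (((P b : ℝ) : 𝕜) * vir M P w b) =
      ∑ b, M a b * ((w b : ℝ) : 𝕜) := by
  rw [← eqn, virEq hC M K P g U A ρ h w]
  rfl

end

/-- row VEX -/
theorem vex : VexStmt := by
  intro hC 𝕜 _ X _ _ M K P g U A ρ h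
  have hK0 : ∀ a b, 0 ≤ K a b := fun a b => (norm_nonneg _).trans (h.hM a b)
  have hKK : Cmp K K P g U A ρ :=
    ⟨fun a b => by rw [Real.norm_eq_abs, abs_of_nonneg (hK0 a b)], h.hP, h.hU, h.hg, h.hρ, h.hK⟩
  have hu := isu hC M K P g U A ρ h
  refine ⟨hu, fun w a => ?_, fun w be hbe => ?_, fun f c hc hf a ha => ?_, fun w hw a ha => ?_⟩
  · have h1 := virPsi hC M K P g U A ρ h w a
    rw [sub_eq_iff_eq_add] at h1
    rw [h1, ← Finset.sum_add_distrib]
    refine Finset.sum_congr rfl fun b _ => ?_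
    rw [psi, mul_add]
  · have h1 : (1 - M * dg 𝕜 P) *ᵥ be = M *ᵥ fun x => ((w x : ℝ) : 𝕜) := by
      funext a
      rw [eqn, hbe a]
      simp only [psi, mul_add, Finset.sum_add_distrib]
      rw [add_sub_cancel_right]
      rfl
    unfold vir TT
    rw [← h1, Matrix.mulVec_mulVec, Matrix.nonsing_inv_mul _ hu, Matrix.one_mulVec]
  · have h1 := (hC 𝕜 X M K P g U A ρ h).2 (TT M P *ᵥ f) (fun x => c / (1 - ρ) * g x) (by
      intro a ha
      have hinv : ((1 - M * dg 𝕜 P) *ᵥ (TT M P *ᵥ f)) a = f a := by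
        unfold TT
        rw [Matrix.mulVec_mulVec, Matrix.mul_nonsing_inv _ hu, Matrix.one_mulVec]
      rw [← eqn, hinv]
      have h2 : ∑ b, K a b * (P b * (c / (1 - ρ) * g b)) =
          c / (1 - ρ) * ∑ b, K a b * P b * g b := by
        rw [Finset.mul_sum]
        exact Finset.sum_congr rfl fun b _ => by ring
      rw [h2]
      have hρ : 0 < 1 - ρ := by linarith [h.hρ.2]
      have h3 : c / (1 - ρ) * ∑ b, K a b * P b * g b ≤ c / (1 - ρ) * (ρ * g a) :=
        mul_le_mul_of_nonneg_left (h.hK a ha) (div_nonneg hc hρ.le)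
      have h4 : c / (1 - ρ) * g a - c / (1 - ρ) * (ρ * g a) = c * g a := by
        field_simp
      linarith [hf a ha])
    exact h1 a ha
  · have h1 := (hC 𝕜 X M K P g U A ρ h).2 (vir M P w) (vir K P w) (by
      intro a _
      rw [virPsi hC M K P g U A ρ h w a]
      have h2 := virPsi (𝕜 := ℝ) hC K K P g U A ρ hKK w a
      simp only [RCLike.ofReal_real_eq_id, id] at h2
      rw [h2]
      refine (norm_sum_le _ _).trans (Finset.sum_le_sum fun b _ => ?_)
      rw [norm_mul, RCLike.norm_ofReal, abs_of_nonneg (hw b)]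
      exact mul_le_mul_of_nonneg_right (h.hM a b) (hw b))
    exact h1 a ha

end Pool.Agent.ABY.H82
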